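import Pool.Agent.N840.QF.Fin

/-!
# The first case over all quadratic fields at once

Let `p ≥ 11` be a prime and let `e` be the multiple of `6` among `p - 1` and `p + 1`. Let `n` be a
multiple of `p` which is divisible by the largest power of two that divides `e`, or by the largest
power of three that divides `e`. Suppose that

* `n` is even, `p ≠ 13` and `2 ^ (p - 1)` is not congruent to `1` modulo `p ^ 2`; or
* `p` does not divide the Bernoulli number with index `p - 3`, and `2 ^ (p - 1)` is not congruent to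
  `1` modulo `p ^ 2` or `p` does not divide the Bernoulli number with index `p - 5`; or
* `2 (i + 1) (i + 2) + 3 ≤ p`, where `i` is the index of irregularity of `p`.

Then the first case of Fermat's Last Theorem holds for the exponent `n` over all quadratic fields,
without exception.

Proof. Let `n = p k`. The relations of Stickelberger for the norms of `z ^ k - ζ y ^ k` and, if `k` is
even, for those of `z ^ (k / 2) ± ζ y ^ (k / 2)`, show that the residue of `(z / y) ^ k` at a prime `v`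
above `p` is a primitive sixth root of unity. Let `k = 2 ^ a k'` with `k'` odd. For `b < a` the
element `z' - ζ y'`, `z' = z ^ (2 ^ b k')`, `y' = ± y ^ (2 ^ b k')`, generates up to the `p`-th power of
an ideal the `k / (2 ^ b k')`-th root modulo `p`-th powers of `z ^ k - y ^ k`; so the relation of
Wieferich holds for it, with the same parities for both signs. It excludes by induction that the
norm of `z' / y'` is not `1` modulo `p`. So the residue of `(z / y) ^ k'` is an element `γ` of norm `1` and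
`γ ^ (2 ^ a)` has order six, and the Frobenius at `v` shows that `γ ^ e = 1`.
-/

set_option autoImplicit false

namespace Pool.Agent.Results.MP_50a406_nt.AllQuadraticFields

open NumberField IsDedekindDomain

/-- The even numbers `k` with `2 ≤ k ≤ p - 3` for which `p` divides the numerator of the Bernoulli
number with index `k`. Their number is the index of irregularity of `p`. -/
def Irregular (p : ℕ) : Finset ℕ :=
  (Finset.range p).filter fun k => Even k ∧ 2 ≤ k ∧ k + 3 ≤ p ∧ (p : ℤ) ∣ (bernoulli k).num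

/-- the multiple of six among `p - 1` and `p + 1` (`p > 3` prime) -/
def six (p : ℕ) : ℕ := if p % 3 = 1 then p - 1 else p + 1

theorem aux {e k q a : ℕ} (he : e ≠ 0) (hq : q.Prime) (h1 : q ^ a ∣ k) (h2 : ¬ q ^ (a + 1) ∣ e)
    (h3 : q ∣ e / Nat.gcd e k) : False := by
  obtain ⟨f, m, hm, hf⟩ := Nat.exists_eq_pow_mul_and_not_dvd he q hq.ne_one
  have hfa : f ≤ a := by
    by_contra hcon
    exact h2 ((pow_dvd_pow q (by omega)).trans (Dvd.intro _ hf.symm))
  have h4 : q ^ f ∣ Nat.gcd e k :=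
    Nat.dvd_gcd (Dvd.intro _ hf.symm) ((pow_dvd_pow q hfa).trans h1)
  have h5 : q ^ f * q ∣ Nat.gcd e k * (e / Nat.gcd e k) := Nat.mul_dvd_mul h4 h3
  rw [Nat.mul_div_cancel' (Nat.gcd_dvd_left e k), hf] at h5
  exact hm (Nat.dvd_of_mul_dvd_mul_left (pow_pos hq.pos f) h5)

theorem result (K : Type) [Field K] [NumberField K] (hK : Module.finrank ℚ K = 2)
    (p n : ℕ) (hp : p.Prime) (h11 : 11 ≤ p) (hn : p ∣ n)
    (h6 : (∃ a : ℕ, 2 ^ a ∣ n ∧ ¬ 2 ^ (a + 1) ∣ six p) ∨
      ∃ c : ℕ, 3 ^ c ∣ n ∧ ¬ 3 ^ (c + 1) ∣ six p)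
    (hcond : (Even n ∧ p ≠ 13 ∧ ¬ p ^ 2 ∣ 2 ^ (p - 1) - 1) ∨
      (¬ (p : ℤ) ∣ (bernoulli (p - 3)).num ∧
        (¬ p ^ 2 ∣ 2 ^ (p - 1) - 1 ∨ ¬ (p : ℤ) ∣ (bernoulli (p - 5)).num)) ∨
      2 * (((Irregular p).card + 1) * ((Irregular p).card + 2)) + 3 ≤ p)
    (x y z : K) (h : x ^ n + y ^ n = z ^ n) (hx : x ≠ 0) (hy : y ≠ 0) (hz : z ≠ 0) :
    ∃ v : HeightOneSpectrum (𝓞 K), ((p : ℕ) : 𝓞 K) ∈ v.asIdeal ∧
      ¬ (v.valuation K x = v.valuation K y ∧ v.valuation K y = v.valuation K z) := by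
  by_contra hcon
  push Not at hcon
  obtain ⟨k, rfl⟩ := hn
  have hk : k ≠ 0 := by
    rintro rfl
    rw [mul_zero, pow_zero, pow_zero, pow_zero] at h
    norm_num at h
  have hodd : Odd p := hp.odd_of_ne_two (by omega)
  have hirr : ∀ j : ℕ, ¬ (p : ℤ) ∣ (bernoulli j).num → j ∉ Y546.WQ.irr p := by
    intro j hj hk
    unfold Y546.WQ.irr at hk
    exact hj (Finset.mem_filter.1 hk).2.2.2.2
  have hcond' : N840.FC.Bern p 2 ∨ (p - 3 ∉ Y546.WQ.irr p ∧ ¬ p ^ 2 ∣ 2 ^ (p - 1) - 1) ∨
      (Even k ∧ p ≠ 13 ∧ ¬ p ^ 2 ∣ 2 ^ (p - 1) - 1) := by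
    rcases hcond with ⟨h1, h2, h3⟩ | ⟨h1, h2 | h2⟩ | h1
    · refine Or.inr (Or.inr ⟨?_, h2, h3⟩)
      rcases Nat.even_mul.1 h1 with h4 | h4
      · exact absurd h4 (Nat.not_even_iff_odd.2 hodd)
      · exact h4
    · exact Or.inr (Or.inl ⟨hirr _ h1, h2⟩)
    · refine Or.inl (Or.inl ⟨by omega, fun j hj => ?_⟩)
      have h3 := hirr _ h1
      have h5 := hirr _ h2
      have hj' := (Finset.mem_filter.1 (by unfold Y546.WQ.irr at hj; exact hj)).2
      have h3' : j ≠ p - 3 := fun h => h3 (h ▸ hj)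
      have h5' : j ≠ p - 5 := fun h => h5 (h ▸ hj)
      obtain ⟨⟨a, ha⟩, h2k, h3k, -⟩ := hj'
      obtain ⟨b, hb⟩ := hodd
      omega
    · exact Or.inl (Or.inr h1)
  have hmain := N840.QF.main hp h11 hK hk hcond' hx hy hz h (fun v hv => by
    obtain ⟨h1, h2⟩ := hcon v hv
    exact ⟨h1, h2⟩)
  have he0 : six p ≠ 0 := by
    unfold six
    split_ifs <;> omega
  change 6 ∣ six p / Nat.gcd (six p) k at hmain
  have hcop : ∀ q a : ℕ, q.Prime → q < 11 → q ^ a ∣ p * k → q ^ a ∣ k := by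
    intro q a hq hq11 hd
    apply Nat.Coprime.dvd_of_dvd_mul_left _ hd
    apply Nat.Coprime.pow_left
    rw [Nat.coprime_primes hq hp]
    omega
  rcases h6 with ⟨a, h1, h2⟩ | ⟨a, h1, h2⟩
  · exact aux he0 Nat.prime_two (hcop 2 a Nat.prime_two (by norm_num) h1) h2
      ((by norm_num : 2 ∣ 6).trans hmain)
  · exact aux he0 Nat.prime_three (hcop 3 a Nat.prime_three (by norm_num) h1) h2
      ((by norm_num : 3 ∣ 6).trans hmain)

end Pool.Agent.Results.MP_50a406_nt.AllQuadraticFields
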