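import Pool.Agent.Y546.SG.Main

/-!
# The criterion of Sophie Germain over quadratic fields

Let `K` be a quadratic field, `p` odd and `q` a prime number which is not inert in `K`, such that (as
in the theorem of Sophie Germain over `ℚ`) no three nonzero `p`-th powers modulo `q` have the sum zero
and `p` is not a `p`-th power modulo `q`.  If `q` ramifies in `K`, or if the `p`-th roots of unity
modulo `q` satisfy the condition `Apart`, then the first case of Fermat's Last Theorem holds over `K`
for all exponents divisible by `p`.  There is no condition on the class number and on the units of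
`K`, and none on the regularity of `p`.

If `p ≥ 5` and `q = 2 p + 1` is prime, all this is satisfied if `q` ramifies in `K`, or if `q` splits
in `K` and `5` is not a square modulo `q` (that is, `p` is `1` or `3` modulo `5`).
-/

set_option autoImplicit false

namespace Pool.Agent.Results.MP_50a406_nt.SophieGermain

open NumberField IsDedekindDomain

/-- `a` is a `p`-th power. -/
def IsPw {F : Type} [Field F] (p : ℕ) (a : F) : Prop := ∃ t : F, t ^ p = a

/-- No three nonzero `p`-th powers in `F` have the sum zero. -/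
def NoSum (F : Type) [Field F] (p : ℕ) : Prop :=
  ∀ a b c : F, a ^ p + b ^ p + c ^ p = 0 → a = 0 ∨ b = 0 ∨ c = 0

/-- For all `p`-th roots of unity `u`, `v` in `F`, not both equal to one: `u v` and
`(1 - u) (1 - v)` are not both `p`-th powers, and `(1 - u) / (u v)`, `(1 - v) / (u v)` (and, if `u = 1`
or `v = 1`, also `p (1 - v)` or `p (1 - u)`) are not all `p`-th powers. -/
def Apart (F : Type) [Field F] (p : ℕ) : Prop :=
  ∀ u v : F, u ^ p = 1 → v ^ p = 1 → (u ≠ 1 ∨ v ≠ 1) →
    ¬ (IsPw p (u * v) ∧ IsPw p ((1 - u) * (1 - v))) ∧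
    ¬ (IsPw p ((1 - u) / (u * v)) ∧ IsPw p ((1 - v) / (u * v)) ∧
      (u = 1 → IsPw p ((p : F) * (1 - v))) ∧ (v = 1 → IsPw p ((p : F) * (1 - u))))

section germain

variable {p q : ℕ} [hq : Fact q.Prime]

/-- The `p`-th powers modulo `q = 2 p + 1`. -/
theorem pw_cases (hqp : q = 2 * p + 1) (hp : 5 ≤ p) {a : ZMod q} (h : IsPw p a) :
    a = 0 ∨ a = 1 ∨ a = -1 := by
  obtain ⟨t, rfl⟩ := h
  by_cases ht : t = 0
  · left
    rw [ht, zero_pow (by omega)]
  · right
    have h1 := ZMod.pow_card_sub_one_eq_one ht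
    have h2 : (t ^ p) ^ 2 = 1 := by
      rw [← pow_mul, mul_comm p 2, show 2 * p = q - 1 by omega, h1]
    rcases mul_eq_zero.1 (show (t ^ p - 1) * (t ^ p + 1) = 0 by linear_combination h2) with h | h
    · exact Or.inl (sub_eq_zero.1 h)
    · exact Or.inr (eq_neg_of_add_eq_zero_left h)

theorem two_p (hqp : q = 2 * p + 1) : (2 : ZMod q) * (p : ZMod q) = -1 := by
  have h : ((2 * p + 1 : ℕ) : ZMod q) = 0 := by
    rw [← hqp]
    exact ZMod.natCast_self q
  push_cast at h
  linear_combination h

theorem small_ne (k : ℕ) (h0 : 0 < k) (hk : k < q) : (k : ZMod q) ≠ 0 := by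
  intro h
  rw [ZMod.natCast_eq_zero_iff] at h
  exact absurd (Nat.le_of_dvd h0 h) (not_le.2 hk)

theorem noSum (hqp : q = 2 * p + 1) (hp : 5 ≤ p) : NoSum (ZMod q) p := by
  intro a b c h
  by_contra hcon
  push Not at hcon
  obtain ⟨ha, hb, hc⟩ := hcon
  have n3 : (3 : ZMod q) ≠ 0 := by exact_mod_cast small_ne (q := q) 3 (by norm_num) (by omega)
  have n1 : (1 : ZMod q) ≠ 0 := one_ne_zero
  have h1 := (pw_cases hqp hp (a := a ^ p) ⟨a, rfl⟩).resolve_left (pow_ne_zero _ ha)
  have h2 := (pw_cases hqp hp (a := b ^ p) ⟨b, rfl⟩).resolve_left (pow_ne_zero _ hb)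
  have h3 := (pw_cases hqp hp (a := c ^ p) ⟨c, rfl⟩).resolve_left (pow_ne_zero _ hc)
  rcases h1 with h1 | h1 <;> rcases h2 with h2 | h2 <;> rcases h3 with h3 | h3 <;>
    rw [h1, h2, h3] at h <;>
    first
      | exact n3 (by linear_combination h)
      | exact n3 (by linear_combination -h)
      | exact n1 (by linear_combination h)
      | exact n1 (by linear_combination -h)

theorem not_pw (hqp : q = 2 * p + 1) (hp : 5 ≤ p) : ¬ IsPw p (p : ZMod q) := by
  intro h
  have n3 : (3 : ZMod q) ≠ 0 := by exact_mod_cast small_ne (q := q) 3 (by norm_num) (by omega)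
  have e := two_p (q := q) hqp
  rcases pw_cases hqp hp h with h1 | h1 | h1
  · rw [h1] at e
    exact one_ne_zero (by linear_combination e)
  · rw [h1] at e
    exact n3 (by linear_combination e)
  · rw [h1] at e
    exact one_ne_zero (by linear_combination -e)

theorem apart (hqp : q = 2 * p + 1) (hp : 5 ≤ p) (hodd : Odd p) (h5 : ¬ IsSquare (5 : ZMod q)) :
    Apart (ZMod q) p := by
  intro u v hu hv huv
  have hp0 : p ≠ 0 := by omega
  have hu0 : u ≠ 0 := by
    rintro rfl
    rw [zero_pow hp0] at hu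
    exact zero_ne_one hu
  have hv0 : v ≠ 0 := by
    rintro rfl
    rw [zero_pow hp0] at hv
    exact zero_ne_one hv
  have n2 : (2 : ZMod q) ≠ 0 := by exact_mod_cast small_ne (q := q) 2 (by norm_num) (by omega)
  have n3 : (3 : ZMod q) ≠ 0 := by exact_mod_cast small_ne (q := q) 3 (by norm_num) (by omega)
  have n5 : (5 : ZMod q) ≠ 0 := by exact_mod_cast small_ne (q := q) 5 (by norm_num) (by omega)
  have hm1 : (-1 : ZMod q) ≠ 1 := fun h => n2 (by linear_combination -h)
  have six : ∀ w : ZMod q, w ^ p = 1 → w ^ 2 - w + 1 ≠ 0 := by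
    intro w hw h
    have h1 : w ^ 3 = -1 := by linear_combination (w + 1) * h
    have h2 : (w ^ 3) ^ p = 1 := by rw [← pow_mul, mul_comm, pow_mul, hw, one_pow]
    rw [h1, hodd.neg_one_pow] at h2
    exact hm1 h2
  have gold : ∀ w : ZMod q, w ^ 2 - 3 * w + 1 ≠ 0 := fun w h =>
    h5 ⟨2 * w - 3, by linear_combination (-4) * h⟩
  have gold' : ∀ w : ZMod q, w ^ 2 + w - 1 ≠ 0 := fun w h =>
    h5 ⟨2 * w + 1, by linear_combination (-4) * h⟩
  constructor
  · rintro ⟨h1, h2⟩
    have h3 : (u * v) ^ p = 1 := by rw [mul_pow, hu, hv, one_mul]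
    have h4 : u * v = 1 := by
      rcases pw_cases hqp hp h1 with h | h | h
      · exact absurd h (mul_ne_zero hu0 hv0)
      · exact h
      · rw [h, hodd.neg_one_pow] at h3
        exact absurd h3 hm1
    have hu1 : u ≠ 1 := by
      rintro rfl
      rw [one_mul] at h4
      exact huv.elim (fun h => h rfl) (fun h => h h4)
    have hv1 : v ≠ 1 := by
      rintro rfl
      rw [mul_one] at h4
      exact hu1 h4
    rcases pw_cases hqp hp h2 with h | h | h
    · rcases mul_eq_zero.1 h with h | h
      · exact hu1 (sub_eq_zero.1 h).symm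
      · exact hv1 (sub_eq_zero.1 h).symm
    · exact six u hu (by linear_combination (-u) * h + (u - 1) * h4)
    · exact gold u (by linear_combination (-u) * h + (u - 1) * h4)
  · rintro ⟨h1, h2, h3, h4⟩
    have huv0 : u * v ≠ 0 := mul_ne_zero hu0 hv0
    have e := two_p (q := q) hqp
    have one : ∀ w : ZMod q, w ≠ 0 → w ≠ 1 → IsPw p ((1 - w) / w) → ¬ IsPw p ((p : ZMod q) * (1 - w)) := by
      intro w hw0 hw1 k1 k2
      rcases pw_cases hqp hp k1 with h | h | h
      · rcases div_eq_zero_iff.1 h with h | h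
        · exact hw1 (sub_eq_zero.1 h).symm
        · exact hw0 h
      · rw [div_eq_iff hw0] at h
        rcases pw_cases hqp hp k2 with k | k | k
        · exact one_ne_zero (show (1 : ZMod q) = 0 by
            linear_combination (-1) * h - 4 * k + 2 * (1 - w) * e)
        · exact n5 (by linear_combination (-1) * h - 4 * k + 2 * (1 - w) * e)
        · exact n3 (by linear_combination h + 4 * k - 2 * (1 - w) * e)
      · rw [div_eq_iff hw0] at h
        exact one_ne_zero (show (1 : ZMod q) = 0 by linear_combination h)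
    by_cases hu1 : u = 1
    · subst hu1
      have hv1 : v ≠ 1 := huv.resolve_left (fun h => h rfl)
      rw [one_mul] at h2
      exact one v hv0 hv1 h2 (h3 rfl)
    · by_cases hv1 : v = 1
      · subst hv1
        rw [mul_one] at h1
        exact one u hu0 hu1 h1 (h4 rfl)
      · have z1 : (1 - u) / (u * v) ≠ 0 := div_ne_zero (sub_ne_zero.2 (Ne.symm hu1)) huv0
        have z2 : (1 - v) / (u * v) ≠ 0 := div_ne_zero (sub_ne_zero.2 (Ne.symm hv1)) huv0
        rcases (pw_cases hqp hp h1).resolve_left z1 with a | a <;>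
          rcases (pw_cases hqp hp h2).resolve_left z2 with b | b <;>
          rw [div_eq_iff huv0] at a b
        · exact gold' u (by linear_combination (-1 - u) * a + u * b)
        · exact gold u (by linear_combination (1 - u) * a - u * b)
        · exact gold v (by linear_combination (1 - v) * b - v * a)
        · exact six u hu (by linear_combination (1 - u) * a + u * b)

end germain

/-- **The criterion of Sophie Germain over quadratic fields.**  Let `K` be a quadratic field, `p` odd
and `q` prime with a prime ideal of norm `q` in `K` (so `q` is not inert).  Suppose that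

* no three nonzero `p`-th powers modulo `q` have the sum zero, `p` is not a `p`-th power modulo `q`,
  and `q` ramifies in `K` or the `p`-th roots of unity modulo `q` satisfy `Apart`; or that
* `p ≥ 5`, `q = 2 p + 1`, and `q` ramifies in `K` or `5` is not a square modulo `q`.

Then the first case of Fermat's Last Theorem holds over `K` for all exponents `n` divisible by `p`: if
`x ^ n + y ^ n = z ^ n` with nonzero `x, y, z` in `K` then the valuations of `x`, `y` and `z` at some
prime ideal above `p` are not equal. -/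
theorem result (K : Type) [Field K] [NumberField K] (hK : Module.finrank ℚ K = 2)
    (p q n : ℕ) (hp : Odd p) (hq : q.Prime) (hQ : ∃ Q : Ideal (𝓞 K), Ideal.absNorm Q = q)
    (hc : (∃ _ : Fact q.Prime, NoSum (ZMod q) p ∧ ¬ IsPw p (p : ZMod q) ∧
        ((q : ℤ) ∣ NumberField.discr K ∨ Apart (ZMod q) p)) ∨
      (5 ≤ p ∧ q = 2 * p + 1 ∧
        ((q : ℤ) ∣ NumberField.discr K ∨ ¬ ∃ s : ZMod q, s ^ 2 = 5)))
    (hn : p ∣ n) (x y z : K) (h : x ^ n + y ^ n = z ^ n) (hx : x ≠ 0) (hy : y ≠ 0) (hz : z ≠ 0) :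
    ∃ v : HeightOneSpectrum (𝓞 K), ((p : ℕ) : 𝓞 K) ∈ v.asIdeal ∧
      ¬ (v.valuation K x = v.valuation K y ∧ v.valuation K y = v.valuation K z) := by
  have hqf : Fact q.Prime := ⟨hq⟩
  by_contra hcon
  push Not at hcon
  obtain ⟨k, rfl⟩ := hn
  obtain ⟨Q, hQ⟩ := hQ
  have hF : (x ^ k) ^ p + (y ^ k) ^ p + (-z ^ k) ^ p = 0 := by
    rw [hp.neg_pow, ← pow_mul, ← pow_mul, ← pow_mul, mul_comm k p, h]
    ring
  have hall : NoSum (ZMod q) p ∧ ¬ IsPw p (p : ZMod q) ∧
      (Apart (ZMod q) p ∨ (q : ℤ) ∣ NumberField.discr K) := by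
    rcases hc with ⟨_, h1, h2, h3⟩ | ⟨h1, h2, h3⟩
    · exact ⟨h1, h2, h3.symm⟩
    · refine ⟨noSum h2 h1, not_pw h2 h1, ?_⟩
      rcases h3 with h3 | h3
      · exact Or.inr h3
      · refine Or.inl (apart h2 h1 hp fun h4 => h3 ?_)
        obtain ⟨s, hs⟩ := h4
        exact ⟨s, by rw [sq, ← hs]⟩
  refine Pool.Agent.Y546.SG.main hK hp Q hQ hall.1 hall.2.1 hall.2.2 (pow_ne_zero k hx)
    (pow_ne_zero k hy) (neg_ne_zero.2 (pow_ne_zero k hz)) hF fun v hv => ?_
  obtain ⟨h1, h2⟩ := hcon v hv
  rw [Valuation.map_neg, map_pow, map_pow, map_pow, h1, h2]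
  exact ⟨rfl, rfl⟩

end Pool.Agent.Results.MP_50a406_nt.SophieGermain
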